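import Pool.Agent.Work.MP_e1e788_gt.Ex
import Pool.Agent.Work.MP_e1e788_gt.MorseB

/-!
# A knot that is not fibred although its Artin spin is fibred

The definitions in the section are written for a map `K : M → N` of manifolds modelled on `E` and
`F`; they are used for spheres only.
-/

open scoped Manifold ContDiff Topology

namespace Pool.Agent.Results.MP_e1e788_gt.SpinFibred

/-- Euclidean space of dimension `n`. -/
abbrev Euc (n : ℕ) : Type := EuclideanSpace ℝ (Fin n)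

section
variable (E F : Type) {M N : Type} [NormedAddCommGroup E] [NormedSpace ℝ E]
  [NormedAddCommGroup F] [NormedSpace ℝ F] [TopologicalSpace M] [ChartedSpace E M]
  [TopologicalSpace N] [ChartedSpace F N]

/-- A smooth injective immersion (a smooth embedding, for compact `M`). -/
def IsEmb (K : M → N) : Prop :=
  ContMDiff 𝓘(ℝ, E) 𝓘(ℝ, F) ∞ K ∧ Function.Injective K ∧
    ∀ x, Function.Injective (mfderiv 𝓘(ℝ, E) 𝓘(ℝ, F) K x)

/-- The differential of `K` vanishes at `x`. -/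
def IsCrit (K : M → N) (x : M) : Prop := mfderiv 𝓘(ℝ, E) 𝓘(ℝ, F) K x = 0

/-- A regular map: `f` is smooth on the complement of `K` (its values on `K` play no role) and,
for a tubular neighbourhood `ν : M × D^2 → N` of `K` (a diffeomorphism of `M × {|z| < 1}` onto an
open set with `ν (x, 0) = K x`), `f (ν (x, z)) = z / |z|` for `z ≠ 0`. -/
def IsRegular (K : M → N) (f : N → Circle) : Prop :=
  ContMDiffOn 𝓘(ℝ, F) (𝓡 1) ∞ f (Set.range K)ᶜ ∧
    ∃ ν : PartialDiffeomorph (𝓘(ℝ, E).prod 𝓘(ℝ, ℂ)) 𝓘(ℝ, F) (M × ℂ) N ∞,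
      ν.source = Set.univ ×ˢ Metric.ball 0 1 ∧ (∀ x, ν (x, 0) = K x) ∧
        ∀ x z, z ≠ 0 → ‖z‖ < 1 → (f (ν (x, z)) : ℂ) = z / (‖z‖ : ℂ)

/-- The critical points of `f` in the complement of `K`. -/
def crit (K : M → N) (f : N → Circle) : Set N :=
  {y | y ∉ Set.range K ∧ IsCrit F (Euc 1) f y}

/-- A Morse map: at every critical point, in the chart at that point `f = exp (i g)` for a smooth
real function `g` whose second derivative is nondegenerate. -/
def IsMorse (K : M → N) (f : N → Circle) : Prop :=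
  ∀ y ∈ crit F K f, ∃ g : F → ℝ, ContDiffAt ℝ ∞ g (chartAt F y y) ∧
    (∀ᶠ u in 𝓝 (chartAt F y y), f ((chartAt F y).symm u) = Circle.exp (g u)) ∧
    ∀ v, fderiv ℝ (fderiv ℝ g) (chartAt F y y) v = 0 → v = 0

/-- The least number of critical points of a regular Morse map. -/
noncomputable def minCrit (K : M → N) : ℕ∞ :=
  ⨅ f : {f : N → Circle // IsRegular E F K f ∧ IsMorse F K f}, (crit F K f.1).encard

end

/-- The unit sphere `S^n` in `R^(n+1)`, with the smooth structure of Mathlib. -/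
abbrev Sph (n : ℕ) : Type := Metric.sphere (0 : Euc (n + 1)) 1

/-- An `n`-knot: a smooth embedding `S^n → S^(n+2)`. -/
def IsKnot {n : ℕ} (K : Sph n → Sph (n + 2)) : Prop := IsEmb (Euc n) (Euc (n + 2)) K

/-- The Morse-Novikov number of a knot. -/
noncomputable def MN {n : ℕ} (K : Sph n → Sph (n + 2)) : ℕ∞ := minCrit (Euc n) (Euc (n + 2)) K

/-- The coordinates `x₀, …, x_n` of a point of `S^n`. -/
def co {n : ℕ} (x : Sph n) : Fin (n + 1) → ℝ := x.1

/-- The standard inclusion `(x₀, x₁, …, x_n) ↦ (x₀, 0, 0, x₁, …, x_n)`. -/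
def incl {n : ℕ} (x : Fin (n + 1) → ℝ) : Fin (n + 3) → ℝ :=
  Fin.cons (x 0) (Fin.cons 0 (Fin.cons 0 (Fin.tail x)))

/-- Rotation of the half space `x₀ ≥ 0` about its boundary:
`(x₀, x₁, …, x_n) ↦ (x₀ cos θ, x₀ sin θ, x₁, …, x_n)`. -/
noncomputable def rot {n : ℕ} (θ : ℝ) (x : Fin (n + 1) → ℝ) : Fin (n + 2) → ℝ :=
  Fin.cons (x 0 * Real.cos θ) (Fin.cons (x 0 * Real.sin θ) (Fin.tail x))

/-- `K'` is the Artin spin of `K`. The knot `K` is the standard inclusion near the lower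
hemisphere `x₀ ≤ 0` (the unknotted ball pair) and sends the open upper hemisphere into the open
upper hemisphere (the knotted ball pair); `K'` is swept out by rotating the upper hemispheres. -/
def IsSpin {n : ℕ} (K : Sph n → Sph (n + 2)) (K' : Sph (n + 1) → Sph (n + 1 + 2)) : Prop :=
  (∃ ε : ℝ, 0 < ε ∧ ∀ x, co x 0 < ε → co (K x) = incl (co x)) ∧
    (∀ x, 0 < co x 0 → 0 < co (K x) 0) ∧
      ∀ x y θ, 0 ≤ co x 0 → co y = rot θ (co x) → co (K' y) = rot θ (co (K x))

theorem result :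
    ∃ n : ℕ, 6 ≤ n ∧ ∃ (K : Sph n → Sph (n + 2)) (K' : Sph (n + 1) → Sph (n + 1 + 2)),
      IsKnot K ∧ IsKnot K' ∧ IsSpin K K' ∧ MN K' = 0 ∧ 0 < MN K ∧ MN K < ⊤ := by
  obtain ⟨D⟩ := SpunKnot.exists_longData
  obtain ⟨n, hn, K, K', h1, h2, ⟨⟨ε, hε, h3⟩, h4, h5⟩, h6⟩ :=
    Pool.Agent.Work.MP_e1e788_gt.of_longData' (by norm_num) D
  refine ⟨n, hn, K, K', h1, h2, ⟨⟨ε, hε, fun x hx => congrArg WithLp.ofLp (h3 x hx)⟩, h4,
    fun x y θ hx hy => congrArg WithLp.ofLp (h5 x y θ hx (congrArg (WithLp.toLp 2) hy))⟩, h6⟩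

end Pool.Agent.Results.MP_e1e788_gt.SpinFibred
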